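import Pool.Agent.Lib.MP_7f5b60_al.Cayley

/-!
The group `G = ⟨y, z, c, s | c y = y c, c z = z c, c s = s y z y⁻¹ z⁻¹ c ^ 2⟩` (generators
`0 = y`, `1 = z`, `2 = c`, `3 = s`) is bi-Lipschitz equivalent to a free-by-cyclic group, but no
finite-index subgroup of `G` maps with finite kernel to a semidirect product of a free group with
the integers.
-/

set_option autoImplicit false

namespace Pool.Agent.Results.MP_7f5b60_al.BiLipschitzCounterexample

open Pool.Agent.Lib.MP_7f5b60_al

theorem result (R : Set (FreeGroup (Fin 4)))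
    (hR : R = {FreeGroup.of 2 * FreeGroup.of 0 * (FreeGroup.of 0 * FreeGroup.of 2)⁻¹,
      FreeGroup.of 2 * FreeGroup.of 1 * (FreeGroup.of 1 * FreeGroup.of 2)⁻¹,
      FreeGroup.of 2 * FreeGroup.of 3 * (FreeGroup.of 3 * (FreeGroup.of 0 * FreeGroup.of 1 *
        (FreeGroup.of 0)⁻¹ * (FreeGroup.of 1)⁻¹ * FreeGroup.of 2 ^ (2 : ℤ)))⁻¹}) :
    (∃ (θ : Multiplicative ℤ →* MulAut (FreeGroup (Fin 3)))
      (S : Finset (PresentedGroup R))
      (T : Finset (SemidirectProduct (FreeGroup (Fin 3)) (Multiplicative ℤ) θ))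
      (f : PresentedGroup R ≃ SemidirectProduct (FreeGroup (Fin 3)) (Multiplicative ℤ) θ),
      Subgroup.closure (S : Set (PresentedGroup R)) = ⊤ ∧
      Subgroup.closure
        (T : Set (SemidirectProduct (FreeGroup (Fin 3)) (Multiplicative ℤ) θ)) = ⊤ ∧
      (SimpleGraph.mulCayley (S : Set (PresentedGroup R))).Connected ∧
      (SimpleGraph.mulCayley
        (T : Set (SemidirectProduct (FreeGroup (Fin 3)) (Multiplicative ℤ) θ))).Connected ∧
      ∀ a b : PresentedGroup R,
        (SimpleGraph.mulCayley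
          (T : Set (SemidirectProduct (FreeGroup (Fin 3)) (Multiplicative ℤ) θ))).dist
            (f a) (f b) ≤ 2 * (SimpleGraph.mulCayley (S : Set (PresentedGroup R))).dist a b ∧
        (SimpleGraph.mulCayley (S : Set (PresentedGroup R))).dist a b ≤
          2 * (SimpleGraph.mulCayley
            (T : Set (SemidirectProduct (FreeGroup (Fin 3)) (Multiplicative ℤ) θ))).dist
              (f a) (f b)) ∧
    ∀ (K : Subgroup (PresentedGroup R)), K.FiniteIndex →
      ∀ (F : Type) [Group F] [IsFreeGroup F] (φ : Multiplicative ℤ →* MulAut F)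
        (π : K →* SemidirectProduct F (Multiplicative ℤ) φ), Infinite π.ker := by
  have hR' : R = rels := hR
  subst hR'
  refine ⟨⟨act, SG, SH, ⟨ff, ff', ff'_ff, ff_ff'⟩, closure_SG, closure_SH,
    cayley_connected closure_SG, cayley_connected closure_SH, fun a b => ⟨?_, ?_⟩⟩,
    fun K hK F _ _ φ π => GG_infinite_ker K F φ π⟩
  · exact dist_le_of_lip closure_SG ff 2 lip_ff a b
  · have := dist_le_of_lip closure_SH ff' 2 lip_ff' (ff a) (ff b)
    rw [ff'_ff, ff'_ff] at this
    exact this

end Pool.Agent.Results.MP_7f5b60_al.BiLipschitzCounterexample
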